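import Pool.Agent.H30.VM.TargetsD
import Pool.Agent.H17.CI.TargetsD
import Pool.Agent.H27.LV.Curve

/-!
# The estimate of the determinant at all places (row DBT of the board `vmp_modules`)
-/

set_option autoImplicit false

namespace Pool.Agent.H59.VM

open MvPolynomial SC Pool.Agent.H27.LV Pool.Agent.H17.VG Pool.Agent.H30.VM
open Pool.Agent.H17.CI (Tup IlT PQT TxT frmT upT RatT)

private theorem gJ_eq {K ι : Type} [Field K] [DecidableEq ι] {n : ℕ} {A : Finset ι} (F : Tup ι K n)
    (x : Fin (n + 1) → K) (J : A → Fin (n + 1)) :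
    gJ F x J = (Matrix.of fun i i' : A => eval x (pderiv (J i') (F i))).det := by
  unfold gJ
  congr

private theorem det_col' {m K : Type} [Fintype m] [DecidableEq m] [Field K] (A B : Matrix m m K)
    (c : m → K) (k : m) (hk : c k = 0) (h : ∀ i j, A i j = B i j + c j * B i k) :
    A.det = B.det := by
  rw [← Matrix.det_transpose A, ← Matrix.det_transpose B]
  exact Matrix.det_eq_of_forall_row_eq_smul_add_const c k hk fun i j => h j i

/-- the reindexing of the columns: the column `0` is special, the column `1` is ordinary -/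
private def EE (κ ζ : Type) : (κ ⊕ Fin 2) ⊕ ζ ≃ ((κ ⊕ Unit) ⊕ Unit) ⊕ ζ where
  toFun := fun c => match c with
    | Sum.inl (Sum.inl c) => Sum.inl (Sum.inl (Sum.inl c))
    | Sum.inl (Sum.inr t) => if t = 0 then Sum.inl (Sum.inr ()) else Sum.inl (Sum.inl (Sum.inr ()))
    | Sum.inr z => Sum.inr z
  invFun := fun c => match c with
    | Sum.inl (Sum.inl (Sum.inl c)) => Sum.inl (Sum.inl c)
    | Sum.inl (Sum.inl (Sum.inr _)) => Sum.inl (Sum.inr 1)
    | Sum.inl (Sum.inr _) => Sum.inl (Sum.inr 0)
    | Sum.inr z => Sum.inr z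
  left_inv := by
    rintro ((c | t) | z)
    · rfl
    · fin_cases t <;> rfl
    · rfl
  right_inv := by
    rintro (((c | t) | t) | z)
    · rfl
    · rfl
    · rfl
    · rfl

private theorem det_EE {κ ζ ρ K : Type} [Fintype κ] [DecidableEq κ] [Fintype ζ] [DecidableEq ζ]
    [Field K] (e0 : (κ ⊕ Fin 2) ⊕ ζ ≃ ρ) (N : Matrix ρ (((κ ⊕ Unit) ⊕ Unit) ⊕ ζ) K) :
    (N.submatrix ((EE κ ζ).symm.trans e0) id).det =
      ((Matrix.of fun r c => N r (EE κ ζ c)).submatrix e0 id).det := by
  rw [← Matrix.det_submatrix_equiv_self (EE κ ζ) (N.submatrix ((EE κ ζ).symm.trans e0) id)]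
  congr 1
  ext i j
  simp

theorem pf_DBT (hGRT : T_GRT) (hROW : T_ROW) (hDET : Pool.Agent.H17.CI.T_DET) : T_DBT := by
  intro R k K _ _ _ _ _ _ _ _ htr n s ι _ _ i₀ e F hF hNC D hD Z x p hxp hZ Q κ _ _ τ l i j J e0
    hτ hsym hJ hgJ v
  set F' : Tup ι K n := upT K F with hF'
  obtain ⟨hgr, A, J', hJ', hgJ', hord, hnA⟩ := hGRT k K htr n ι e F hF hNC x p hxp v
  have hrow := fun (c : κ) => hROW R k K htr n s ι i₀ e F hF D hD x p hxp Q (τ c) (l c) (i c) (j c)
    (hτ c) (hsym c) v
  have hRat0 : RatT k ((0, 0) : Op R K n) (0 : ι → K) :=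
    ⟨⟨fun a => ⟨0, by simp⟩, fun a b => ⟨0, by simp⟩⟩, fun a => ⟨0, by simp⟩⟩
  have hSym0 : Sym i₀ F' ((0, 0) : Op R K n) (0 : ι → K)
      (fun a => X 0 * upT K ((fun _ _ => 0 : Fin 1 → Tup ι k n) 0) a) := by
    refine ⟨rfl, fun a => ?_⟩
    simp [opF, cD, upT, up]
  have hrow0 := hROW R k K htr n 1 ι i₀ e F hF D hD x p hxp (fun _ _ => 0) (0, 0) 0 0 0 hRat0
    hSym0 v
  have hZA : Z ⊆ A := by
    intro a ha
    by_contra h
    exact (hnA a h).1 ((hZ a).2 ha)
  set lam : κ → K := fun c => (τ c).1 v.unif / D v.unif with hlam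
  set h' : K := (poleOrder v x : K) * (D v.unif / v.unif) with hh'
  -- the matrix after the column operations
  set M : Matrix (Fin (n + 1) ⊕ Fin s) ((κ ⊕ Unit) ⊕ Unit) K := Matrix.of fun r c => match r, c with
    | Sum.inl a, Sum.inl (Sum.inl c) => opV (τ c) x a - lam c * D (x a)
    | Sum.inr b, Sum.inl (Sum.inl c) => if j c = b then x (i c) else 0
    | Sum.inl a, Sum.inl (Sum.inr _) => x a
    | Sum.inr _, Sum.inl (Sum.inr _) => 0
    | Sum.inl a, Sum.inr _ => D (x a) + h' * x a
    | Sum.inr _, Sum.inr _ => 0 with hM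
  set J1 : Z → Fin (n + 1) ⊕ Fin s := fun z => Sum.inl (J z) with hJ1
  set J1' : A → Fin (n + 1) ⊕ Fin s := fun z => Sum.inl (J' z) with hJ1'
  set N : Matrix (Fin (n + 1) ⊕ Fin s) (((κ ⊕ Unit) ⊕ Unit) ⊕ Z) K := Matrix.of fun r c =>
    Sum.elim (fun c => M r c) (fun z => if J1 z = r then (1 : K) else 0) c with hN
  set g : ι → Fin (n + 1) ⊕ Fin s → K := fun a => Sum.elim
    (fun b => eval x (pderiv b (F' a))) (fun b => eval x (upT K (Q b) a)) with hg
  -- the matrix after the first operation
  set B1 : Matrix (Fin (n + 1) ⊕ Fin s) ((κ ⊕ Fin 2) ⊕ Z) K := Matrix.of fun r c =>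
    Sum.elim (Sum.elim (fun c => M r (Sum.inl (Sum.inl c)))
      (fun t => bigP D x τ i j J r (Sum.inl (Sum.inr t))))
      (fun z => if J1 z = r then (1 : K) else 0) c with hB1
  have hdet1 : ((bigP D x τ i j J).submatrix e0 id).det = (B1.submatrix e0 id).det := by
    refine det_col' _ _ (fun c => Sum.elim (Sum.elim lam fun _ => 0) (fun _ => 0) c)
      (Sum.inl (Sum.inr 0)) rfl fun r c => ?_
    simp only [Matrix.submatrix_apply, id]
    rcases e0 r with a | b
    · rcases c with (c | c) | z
      · simp only [bigP, hB1, hM, Matrix.of_apply, Sum.elim_inl, Sum.elim_inr, if_true]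
        ring
      · simp only [bigP, hB1, hM, Matrix.of_apply, Sum.elim_inl, Sum.elim_inr]
        ring
      · simp only [bigP, hB1, hM, hJ1, Matrix.of_apply, Sum.elim_inl, Sum.elim_inr,
          Sum.inl.injEq]
        ring
    · rcases c with (c | c) | z
      · simp only [bigP, hB1, hM, Matrix.of_apply, Sum.elim_inl, Sum.elim_inr]
        ring
      · simp only [bigP, hB1, hM, Matrix.of_apply, Sum.elim_inl, Sum.elim_inr]
        ring
      · simp only [bigP, hB1, hM, hJ1, Matrix.of_apply, Sum.elim_inl, Sum.elim_inr, reduceCtorEq,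
          if_false]
        ring
  have hdet2 : (B1.submatrix e0 id).det =
      ((Matrix.of fun r c => N r (EE κ Z c)).submatrix e0 id).det := by
    refine det_col' _ _ (fun c => Sum.elim (Sum.elim (fun _ => 0)
      (fun t : Fin 2 => if t = 0 then -h' else 0)) (fun _ => 0) c)
      (Sum.inl (Sum.inr 1)) (by simp) fun r c => ?_
    simp only [Matrix.submatrix_apply, id]
    rcases e0 r with a | b
    · rcases c with (c | c) | z
      · simp [EE, bigP, hB1, hN, hM]
      · fin_cases c
        · simp [EE, bigP, hB1, hN, hM]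
        · simp [EE, bigP, hB1, hN, hM]
      · simp [EE, bigP, hB1, hN, hM]
    · rcases c with (c | c) | z
      · simp [EE, bigP, hB1, hN, hM]
      · fin_cases c
        · simp [EE, bigP, hB1, hN, hM]
        · simp [EE, bigP, hB1, hN, hM]
      · simp [EE, bigP, hB1, hN, hM]
  have hdet : ((bigP D x τ i j J).submatrix e0 id).det =
      (N.submatrix ((EE κ Z).symm.trans e0) id).det := by
    rw [hdet1, hdet2, det_EE]
  have hgZ : (Matrix.of fun a a' : Z => g a (J1 a')).det = gJ F' x J := (gJ_eq F' x J).symm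
  have hgA : (Matrix.of fun a a' : A => g a (J1' a')).det = gJ F' x J' := (gJ_eq F' x J').symm
  have hJ1i : Function.Injective J1 := fun a b h => hJ (Sum.inl_injective h)
  have hJ1i' : Function.Injective J1' := fun a b h => hJ' (Sum.inl_injective h)
  -- combinations of the rows
  have hsumc : ∀ (a : ι) (c : κ), ∑ r, g a r * M r (Sum.inl (Sum.inl c)) =
      ((τ c).1 (eval x (F' a)) - lam c * D (eval x (F' a))) + l c a * eval x (F' a) := by
    intro a c
    rw [← ((hrow c).2.2.2 a).1, Fintype.sum_sum_type]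
    congr 1
    have : ∀ b : Fin s, g a (Sum.inr b) * M (Sum.inr b) (Sum.inl (Sum.inl c)) =
        if j c = b then eval x (upT K (Q b) a) * x (i c) else 0 := by
      intro b
      simp only [hg, hM, Matrix.of_apply, Sum.elim_inr]
      split_ifs <;> simp
    rw [Finset.sum_congr rfl fun b _ => this b, Finset.sum_ite_eq Finset.univ (j c)]
    simp
  have hsumx : ∀ a : ι, ∑ r, g a r * M r (Sum.inl (Sum.inr ())) =
      ((e a + 1 : ℕ) : K) * eval x (F' a) := by
    intro a
    rw [Fintype.sum_sum_type]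
    have h2 : ∀ b : Fin s, g a (Sum.inr b) * M (Sum.inr b) (Sum.inl (Sum.inr ())) = 0 := by
      intro b
      simp only [hM, Matrix.of_apply, mul_zero]
    rw [Finset.sum_congr rfl fun b _ => h2 b, Finset.sum_const_zero, add_zero]
    exact (hrow0.2.2.2 a).2.1
  have hsumu : ∀ a : ι, ∑ r, g a r * M r (Sum.inr ()) =
      D (eval x (F' a)) + h' * (((e a + 1 : ℕ) : K) * eval x (F' a)) := by
    intro a
    rw [Fintype.sum_sum_type]
    have h2 : ∀ b : Fin s, g a (Sum.inr b) * M (Sum.inr b) (Sum.inr ()) = 0 := by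
      intro b
      simp only [hM, Matrix.of_apply, mul_zero]
    rw [Finset.sum_congr rfl fun b _ => h2 b, Finset.sum_const_zero, add_zero]
    exact (hrow0.2.2.2 a).2.2.1
  have hMl : ∀ r c, ge v (-(poleOrder v x)) (M r (Sum.inl c)) := by
    intro r c
    rcases c with c | c
    · rcases r with a | b
      · exact (hrow c).2.1 a
      · simp only [hM, Matrix.of_apply]
        split_ifs
        · exact hrow0.1 _
        · exact Or.inl rfl
    · rcases r with a | b
      · exact hrow0.1 a
      · exact Or.inl rfl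
  have hcard : Fintype.card (Fin (n + 1) ⊕ Fin s) = n + 1 + s := by simp
  have hmain : ∀ ω : ℤ, ω ≤ ordD v D → (∀ a, a ∉ Z → ge v (v.ord (eval x (F' a)) + ω)
      (D (eval x (F' a)) + h' * (((e a + 1 : ℕ) : K) * eval x (F' a)))) →
      ge v (v.ord (gJ F' x J) + ∑ a ∈ Finset.univ \ Z, v.ord (eval x (F' a)) +
      ((∑ a, (e a + 1) : ℕ) - Z.card : ℤ) * poleOrder v x - ((n : ℤ) + 1 + s - Z.card) *
        poleOrder v x + ω) ((bigP D x τ i j J).submatrix e0 id).det := by
    intro ω hω hsp
    have h := hDET k K v (Fin (n + 1) ⊕ Fin s) (κ ⊕ Unit) ι Z A M J1 J1' g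
      ((EE κ Z).symm.trans e0) (poleOrder v x) ω
      (fun a => v.ord (eval x (F' a))) (-((∑ i ∈ A, e i : ℕ) * poleOrder v x)) hZA hJ1i hJ1i'
      (by rw [hgA]; exact hgJ') (by rw [hgA]; exact hord) (by rw [hgZ]; exact hgJ) hMl
      (fun r => by
        rcases r with a | b
        · exact (hrow0.2.2.1 a).mono (by linarith)
        · exact Or.inl rfl)
      (fun a ha c => by
        have h0 : eval x (F' a) = 0 := (hZ a).2 ha
        rcases c with (c | c) | c
        · rw [hsumc, h0, map_zero, map_zero]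
          ring
        · rw [hsumx, h0, mul_zero]
        · rw [hsumu, h0, map_zero]
          ring)
      (fun a _ haZ => by
        have h0 : eval x (F' a) ≠ 0 := fun h => haZ ((hZ a).1 h)
        refine ⟨fun c => ?_, ?_⟩
        · rcases c with c | c
          · rw [hsumc]
            exact (((hrow c).2.2.2 a).2.2.2 h0).1
          · rw [hsumx]
            have h5 : ge v (0 + v.ord (eval x (F' a)))
                (((e a + 1 : ℕ) : K) * eval x (F' a)) := by
              refine ge.mul ?_ (ge_of_ord v)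
              have := ge_const v ((e a + 1 : ℕ) : k)
              rwa [map_natCast] at this
            rwa [zero_add] at h5
        · rw [hsumu]
          exact hsp a haZ)
    rw [hdet]
    rw [hgZ] at h
    have e1 : ∑ a ∈ Finset.univ \ Z, v.ord (eval x (F' a)) =
        ∑ a ∈ A \ Z, v.ord (eval x (F' a)) -
          (∑ a ∈ Finset.univ \ A, ((e a : ℤ) + 1)) * poleOrder v x := by
      have h1 : Finset.univ \ Z = (A \ Z) ∪ (Finset.univ \ A) := by
        ext a
        simp only [Finset.mem_sdiff, Finset.mem_univ, true_and, Finset.mem_union]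
        constructor
        · intro h2
          by_cases h3 : a ∈ A
          · exact Or.inl ⟨h3, h2⟩
          · exact Or.inr h3
        · rintro (h2 | h2)
          · exact h2.2
          · exact fun h3 => h2 (hZA h3)
      rw [h1, Finset.sum_union]
      · rw [sub_eq_add_neg]
        congr 1
        rw [Finset.sum_mul, ← Finset.sum_neg_distrib]
        refine Finset.sum_congr rfl fun a ha => ?_
        have h2 := (hnA a (Finset.mem_sdiff.1 ha).2).2
        rw [h2]
        push_cast
        ring
      · rw [Finset.disjoint_left]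
        intro a h2 h3
        exact (Finset.mem_sdiff.1 h3).2 (Finset.mem_sdiff.1 h2).1
    have e2 : ((∑ a, (e a + 1) : ℕ) : ℤ) = (∑ a ∈ A, (e a : ℤ)) + A.card +
        ∑ a ∈ Finset.univ \ A, ((e a : ℤ) + 1) := by
      rw [← Finset.sum_sdiff (Finset.subset_univ A)]
      push_cast
      rw [Finset.sum_add_distrib (s := A), Finset.sum_const, nsmul_eq_mul, mul_one]
      ring
    refine h.mono (le_of_eq ?_)
    rw [e1, e2, hcard]
    push_cast
    ring
  refine ⟨?_, fun hord0 => ?_⟩
  · have h := hmain (-1 + ordD v D) (by linarith) (fun a haZ => by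
      have h0 : eval x (F' a) ≠ 0 := fun h => haZ ((hZ a).1 h)
      exact (((hrow0.2.2.2 a).2.2.2 h0).2.1).mono (by linarith))
    exact h.mono (by linarith)
  · exact hmain (ordD v D) le_rfl (fun a haZ => by
      have h0 : eval x (F' a) ≠ 0 := fun h => haZ ((hZ a).1 h)
      exact ((hrow0.2.2.2 a).2.2.2 h0).2.2 (hord0 a haZ))

end Pool.Agent.H59.VM
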