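import Pool.Agent.H30.VM.TargetsF
import Pool.Agent.H17.CI.TargetsX

/-!
# Points over `K` of the equations, Nullstellensatz (row PTB of the board `vmp_modules`)
-/

set_option autoImplicit false

namespace Pool.Agent.H59.VM

open MvPolynomial SC Pool.Agent.H27.LV Pool.Agent.H17.VG Pool.Agent.H30.VM
open Pool.Agent.H17.CI (Tup IlT PQT TxT frmT upT RatT)

private noncomputable def pg (k : Type) [Field k] {n d : ℕ} (M : Mon (n + 1) d) :
    MvPolynomial (Fin (n + 1)) k := ∏ a, X a ^ M.1 a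

private noncomputable def HH {k : Type} [Field k] {n d : ℕ} (G : MvPolynomial (Fin (n + 1)) k)
    (g : MvPolynomial (Mon (n + 1) d) k) : MvPolynomial (Fin (n + 1)) k :=
  ∑ m ∈ g.support, C (g.coeff m) * (∏ M, pg k M ^ m M) * G ^ (g.totalDegree - ∑ M, m M)

private lemma aeval_HH {k Ω : Type} [Field k] [Field Ω] [Algebra k Ω] {n d : ℕ}
    (G : MvPolynomial (Fin (n + 1)) k) (g : MvPolynomial (Mon (n + 1) d) k)
    (x : Fin (n + 1) → Ω) (hG : aeval x G ≠ 0) :
    aeval x (HH G g) = aeval x G ^ g.totalDegree *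
      aeval (fun M : Mon (n + 1) d => (∏ a, x a ^ M.1 a) / aeval x G) g := by
  unfold HH
  rw [map_sum, aeval_def (fun M : Mon (n + 1) d => (∏ a, x a ^ M.1 a) / aeval x G) g, eval₂_eq',
    Finset.mul_sum]
  refine Finset.sum_congr rfl fun m hm => ?_
  have hdeg : ∑ M, m M ≤ g.totalDegree := by
    have h := le_totalDegree hm
    rwa [Finsupp.sum_fintype _ _ (fun _ => rfl)] at h
  rw [map_mul, map_mul, map_prod, map_pow, aeval_C]
  have h1 : ∀ M : Mon (n + 1) d, aeval x (pg k M ^ m M) = (∏ a, x a ^ M.1 a) ^ m M := by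
    intro M
    rw [map_pow, pg, map_prod]
    simp_rw [map_pow, aeval_X]
  simp_rw [h1, div_pow]
  rw [Finset.prod_div_distrib, Finset.prod_pow_eq_pow_sum]
  have h2 : aeval x G ^ g.totalDegree =
      aeval x G ^ (g.totalDegree - ∑ M, m M) * aeval x G ^ ∑ M, m M := by
    rw [← pow_add, Nat.sub_add_cancel hdeg]
  rw [h2]
  have h3 : aeval x G ^ ∑ M, m M ≠ 0 := pow_ne_zero _ hG
  field_simp

private lemma eval_up' {k K : Type} [Field k] [Field K] [Algebra k K] {n : ℕ}
    (x : Fin (n + 1) → K) (P : MvPolynomial (Fin (n + 1)) k) : eval x (up K P) = aeval x P := by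
  unfold up
  rw [eval_map, aeval_def]

theorem pf_PTB (hNST : Pool.Agent.H17.CI.T_NST) : T_PTB := by
  intro k K _ _ _ _ n ι _ _ e Z c z x hz g hg
  by_contra hne
  obtain ⟨-, hon, hval⟩ := hz
  have hG : aeval x (bnd Z c) ≠ 0 := by
    unfold bnd
    rw [map_prod]
    refine Finset.prod_ne_zero_iff.mpr fun i hi => ?_
    rw [← eval_up']
    intro h
    exact (Finset.mem_sdiff.mp hi).2 ((hon i).1 h)
  have hzz : z = fun M : Mon (n + 1) (dgB e Z) => (∏ a, x a ^ M.1 a) / aeval x (bnd Z c) := by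
    funext M
    rw [hval M, eval_up']
  have h1 : aeval x (bnd Z c * HH (bnd Z c) g) ≠ 0 := by
    rw [map_mul, aeval_HH _ _ _ hG, ← hzz]
    exact mul_ne_zero hG (mul_ne_zero (pow_ne_zero _ hG) hne)
  obtain ⟨x1, h2, h3⟩ := hNST k (n + 1) K x {f | ∃ i ∈ Z, f = frmT c i} _ (by
    rintro f ⟨i, hi, rfl⟩
    rw [← eval_up']
    exact (hon i).2 hi) h1
  rw [map_mul] at h3
  have h4 : eval x1 (bnd Z c) ≠ 0 := left_ne_zero_of_mul h3
  have h5 : eval x1 (HH (bnd Z c) g) ≠ 0 := right_ne_zero_of_mul h3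
  have h6 := hg x1 (fun i => ⟨fun h => by
    by_contra hi
    apply h4
    unfold bnd
    rw [map_prod]
    exact Finset.prod_eq_zero (Finset.mem_sdiff.mpr ⟨Finset.mem_univ i, hi⟩) h,
    fun hi => h2 _ ⟨i, hi, rfl⟩⟩)
  apply h5
  have h7 := aeval_HH (Ω := k) (bnd Z c) g x1 (by rwa [aeval_eq_eval])
  simp only [aeval_eq_eval] at h7
  rw [h7, h6, mul_zero]

end Pool.Agent.H59.VM
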